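import Pool.Agent.J6H94.AP.Stm

set_option autoImplicit false

namespace Pool.Agent.J6H33.AP

open Pool.Agent.J6H94.AP

theorem kro : S_kro := by
  intro a b ε ha hb hε
  obtain ⟨n, hn⟩ := exists_nat_gt (a / min ε b)
  have hm : 0 < min ε b := lt_min hε hb
  have hn0 : 0 < n := by
    have : (0 : ℝ) < n := lt_trans (div_pos ha hm) hn
    exact_mod_cast this
  obtain ⟨j, k, hk, -, hjk⟩ := Real.exists_int_int_abs_mul_sub_le (b / a) hn0
  have h1 : |(k : ℝ) * b - j * a| < min ε b := by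
    have e1 : (k : ℝ) * b - j * a = a * (k * (b / a) - j) := by
      field_simp
    rw [e1, abs_mul, abs_of_pos ha]
    have h2 : a * |(k : ℝ) * (b / a) - j| ≤ a * (1 / (n + 1)) := mul_le_mul_of_nonneg_left hjk ha.le
    refine lt_of_le_of_lt h2 ?_
    rw [mul_one_div, div_lt_iff₀ (by positivity)]
    rw [div_lt_iff₀ hm] at hn
    nlinarith
  have hk1 : (1 : ℝ) ≤ k := by exact_mod_cast hk
  have hj : 0 < j := by
    have h2 := (abs_lt.mp h1).2
    have h3 : min ε b ≤ b := min_le_right _ _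
    have h4 : (0 : ℝ) < j * a := by nlinarith
    have h5 : (0 : ℝ) < j := by
      by_contra hc
      push Not at hc
      nlinarith
    exact_mod_cast h5
  lift k to ℕ using hk.le
  lift j to ℕ using hj.le
  have hk' : 1 ≤ k := by exact_mod_cast hk
  have hj' : 1 ≤ j := by exact_mod_cast hj
  simp only [Int.cast_natCast] at h1 hk1
  by_cases hc : 0 ≤ (k : ℝ) * b - j * a
  · exact ⟨j, k, hj', hk', hc, lt_of_lt_of_le (lt_of_le_of_lt (le_abs_self _) h1) (min_le_left _ _)⟩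
  · push Not at hc
    set θ : ℝ := j * a - k * b with hθ
    have hθ0 : 0 < θ := by linarith
    have hθ1 : θ < min ε b := by
      have := (abs_lt.mp h1).1
      linarith
    have hN1 : 1 ≤ ⌊b / θ⌋₊ := by
      rw [Nat.one_le_floor_iff, one_le_div hθ0]
      exact (lt_of_lt_of_le hθ1 (min_le_right _ _)).le
    have f1 : (⌊b / θ⌋₊ : ℝ) ≤ b / θ := Nat.floor_le (by positivity)
    have f2 : b / θ < ⌊b / θ⌋₊ + 1 := Nat.lt_floor_add_one _
    rw [le_div_iff₀ hθ0] at f1
    rw [div_lt_iff₀ hθ0] at f2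
    refine ⟨⌊b / θ⌋₊ * j, ⌊b / θ⌋₊ * k + 1, Nat.mul_pos hN1 hj', by omega, ?_, ?_⟩
    · push_cast
      have e : ((⌊b / θ⌋₊ : ℝ) * k + 1) * b - ⌊b / θ⌋₊ * j * a = b - ⌊b / θ⌋₊ * θ := by
        rw [hθ]; ring
      rw [e]
      linarith
    · push_cast
      have e : ((⌊b / θ⌋₊ : ℝ) * k + 1) * b - ⌊b / θ⌋₊ * j * a = b - ⌊b / θ⌋₊ * θ := by
        rw [hθ]; ring
      rw [e]
      have := min_le_left ε b
      nlinarith

end Pool.Agent.J6H33.AP
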